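import Pool.Agent.W958.Dag.NCDouble
import Pool.Agent.W958.Dag.PathG

/-!
# DAGREACH⁻¹(P) ⊆ NC if and only if P ⊆ NC

The question asks whether every language `L` for which reachability in labelled directed acyclic
graphs by a path with yield in `L` is in `P` lies in `NC`.  We show that this is *equivalent* to
`P ⊆ NC`, that is, to `P = NC`.

* For every language `A` in `P` the language `Dbl A` of all words that are not of the form `xx`,
  together with the words `xx` with `x ∈ A`, has its DAG reachability problem in `P`: if all yields
  from `s` to `t` are squares, then the words that lead from `s` to a vertex `v` half-way form a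
  single word, so only polynomially many words have to be tested.  Tables with at most two words
  for every vertex and every length decide this.
* `x ∈ A` iff `xx ∈ Dbl A`, so `Dbl A` is as hard as `A`; `NC` is closed under the preimage of
  `x ↦ xx`.
* Conversely `L`-DAGREACH in `P` gives `L` in `P` (use the path labelled by the word).

All notions are defined in `Pool.Agent.W958.Dag.Defs` (graphs, `DagReachInP`, `LangInP`, `Dbl`) and
`Pool.Agent.W958.Dag.NC` (circuits, logspace uniformity, `InNC`).  `P` is polynomial time on
Mathlib's Turing machines.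
-/

set_option autoImplicit false

namespace Pool.Agent.Results.MP_ef6eae_lc.IffPEqualsNC

open Pool.Agent.W958.Dag

/-- 1. `DAGREACH⁻¹(P) ⊆ NC` holds iff `P ⊆ NC` (for graphs without parallel edges, `par = false`,
and for graphs with parallel edges, `par = true`).

2. Without any hypothesis, for every `A` in `P` the language `Dbl A` is in `DAGREACH⁻¹(P)`, and
`A` is the preimage of `Dbl A` under `x ↦ xx`.

3. The same equivalence holds for every class `𝒞` of languages that is closed under the preimage of
`x ↦ xx` in place of `NC`. -/
theorem result :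
    (∀ par : Bool,
      (∀ (k : ℕ) (L : Set (List (Fin k))), DagReachInP par L → InNC L) ↔
        ∀ (k : ℕ) (L : Set (List (Fin k))), LangInP L → InNC L) ∧
    (∀ (par : Bool) (k : ℕ) (A : Set (List (Fin k))), LangInP A →
      DagReachInP par (Dbl A) ∧ A = {x | x ++ x ∈ Dbl A}) ∧
    (∀ (par : Bool) (𝒞 : ∀ k : ℕ, Set (List (Fin k)) → Prop),
      (∀ (k : ℕ) (L : Set (List (Fin k))), 𝒞 k L → 𝒞 k {x | x ++ x ∈ L}) →
      ((∀ (k : ℕ) (L : Set (List (Fin k))), DagReachInP par L → 𝒞 k L) ↔
        ∀ (k : ℕ) (L : Set (List (Fin k))), LangInP L → 𝒞 k L)) :=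
  ⟨fun par => class_iff par (fun _ L => InNC L) fun _ _ h => h.double,
    fun par _ _ hA => ⟨dagReachInP_dbl par hA, (dbl_preimage _).symm⟩,
    fun par 𝒞 h𝒞 => class_iff par 𝒞 h𝒞⟩

end Pool.Agent.Results.MP_ef6eae_lc.IffPEqualsNC
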